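import Pool.Agent.MP_3ee8cb_gt.SL3.Defs

namespace Pool.Agent.MP_3ee8cb_gt.SLL

open Pool.Agent.MP_3ee8cb_gt.SL

variable {n : ℕ}

/-- The two metrics agree up to the factor `1 + e`. -/
def Near (g h : Met n) (e : ℝ) : Prop :=
  ∀ x u, g x u u ≤ (1 + e) * h x u u ∧ h x u u ≤ (1 + e) * g x u u

/-- `f` induces the identity on the fundamental group: it has a continuous lift that commutes
with the group. -/
def Marked {g h : Met n} {Γ : Type} [Group Γ] [MulAction Γ (E n)] (f : UM g Γ → UM h Γ) : Prop :=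
  ∃ F : UT g → UT h, Continuous F ∧ (∀ p, f (Quot.mk _ p) = Quot.mk _ (F p)) ∧
    ∀ (γ : Γ) (p q : UT g), q.1 = tm γ p.1 → (F q).1 = tm γ (F p).1

/-- An isometry of the quotient manifold from `g` to `h` whose lift commutes with the group. -/
def IsoId (g h : Met n) (Γ : Type) [Group Γ] [MulAction Γ (E n)] : Prop :=
  ∃ F : E n → E n, Function.Bijective F ∧ ContDiff ℝ 1 F ∧
    (∀ x u v, h (F x) (dE F x u) (dE F x v) = g x u v) ∧ ∀ (γ : Γ) (x : E n), F (γ • x) = γ • F x

end Pool.Agent.MP_3ee8cb_gt.SLL
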