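import Pool.Agent.MP_3ee8cb_gt.DLS.Top
import Pool.Agent.MP_3ee8cb_gt.SLN.Link
import Pool.Agent.MP_3ee8cb_gt.SLL.Defs

/-! Rigidity among uniformly close metrics: the statement layer. -/

namespace Pool.Agent.MP_3ee8cb_gt.SLL

open DN (Dim dm)

section

open CR LV

variable {n : ℕ}

theorem lift_id {g h : Met n} {Γ : Type} [Group Γ] [MulAction Γ (E n)] {Φ : ℝ → UT g → UT g}
    {Ψ : ℝ → UT h → UT h} (f : UM g Γ ≃ₜ UM h Γ) (hn : 3 ≤ n) (A : RP g Γ Φ) (B : RP h Γ Ψ)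
    (hf : ∀ t p q, f (Quot.mk _ p) = Quot.mk _ q → f (Quot.mk _ (Φ t p)) = Quot.mk _ (Ψ t q))
    {F : UT g → UT h} (cF : Continuous F) (lF : ∀ p, f (Quot.mk _ p) = Quot.mk _ (F p))
    (eF : ∀ (γ : Γ) (p q : UT g), q.1 = tm γ p.1 → (F q).1 = tm γ (F p).1) :
    ∃ G : UT g ≃ₜ UT h, CJ g h Φ Ψ (MulEquiv.refl Γ) G := by
  obtain ⟨-, F', -, lF'⟩ := lift2 n g h Γ Γ Φ Ψ f hn A B hf
  let := lift_act B.deck
  have hq := lift_cov B.deck
  obtain ⟨⟨c₀⟩, cX, -⟩ := lift_ut hn A.riem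
  obtain ⟨γ, hγ⟩ := hq.apply_eq_iff_mem_orbit.1 ((lF c₀).symm.trans (lF' c₀))
  have h2 : F = fun a => γ • F' a :=
    hq.isCoveringMap.eq_of_comp_eq cF ((hq.continuous_const_smul γ).comp F'.continuous)
      (funext fun a => ((lF a).symm.trans (lF' a)).trans (hq.map_smul γ).symm) c₀ hγ.symm
  have h3 := congrFun h2
  refine ⟨{
    toFun := F
    invFun := fun b => F'.symm (γ⁻¹ • b)
    left_inv := fun a => by simp only [h3, inv_smul_smul, F'.symm_apply_apply]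
    right_inv := fun b => by simp only [h3, F'.apply_symm_apply, smul_inv_smul]
    continuous_toFun := cF
    continuous_invFun := F'.symm.continuous.comp (hq.continuous_const_smul γ⁻¹) },
    fun t c => ?_, eF⟩
  exact congrFun (hq.isCoveringMap.eq_of_comp_eq (cF.comp (A.fl.cont c)) (B.fl.cont (F c))
    (funext fun t => (lF _).symm.trans (hf t c (F c) (lF c))) 0
    (by rw [Function.comp_apply, A.flow.zero, B.flow.zero])) t

end

open Pool.Agent.MP_3ee8cb_gt.SL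

theorem finL [Dim] {k k' e : ℝ} (hk : k ≤ k') (A : DLS.MainL 1 k' e) (g h : Met dm) (Γ : Type)
    [Group Γ] [MulAction Γ (E dm)] (Φ : ℝ → UT g → UT g) (Ψ : ℝ → UT h → UT h)
    (f : UM g Γ ≃ₜ UM h Γ) (hg : Riem g) (hh : Riem h) (dg : Deck g Γ) (dh : Deck h Γ)
    (sh : SL3.Smooth h Γ) (fg : IsFlow g Φ) (fh : IsFlow h Ψ) (hf : Conj Φ Ψ f) (mk : Marked f)
    (hN : SL3.Pinched h k) (N : Near g h e) : IsoId g h Γ := by
  obtain ⟨g, rfl, rg⟩ := link_riem hg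
  obtain ⟨h, rfl, rh⟩ := link_riem hh
  have n0 : 0 < dm := Nat.succ_pos _
  have qg := LV.all_qp n0 rg (link_deck dg) (link_flow rg fg)
  have qh := LV.all_qp n0 rh (link_deck dh) (link_flow rh fh)
  obtain ⟨F₀, cF, lF, eF⟩ := mk
  obtain ⟨F, cj⟩ := lift_id f (Nat.le_add_left 3 _) qg.rp qh.rp hf cF lF eF
  obtain ⟨a, b, ha, hb, C', c', K⟩ := SLN.link_pin rh hN
  obtain ⟨C, c⟩ := DZS.exists_chr rg
  exact DLS.scaleL A qg qh c c' (sh.act 2) cj ha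
    (hb.le.trans (mul_le_mul_of_nonneg_right hk (sq_nonneg a))) (fun x u v => (K x u v).symm)
    (fun x u => (N x u).1) fun x u => (N x u).2

/-- Rigidity among uniformly close metrics, every dimension, every pinching constant. -/
theorem allL (A : ∀ [Dim] (hi : ℝ), 1 ≤ hi → ∃ r, 0 < r ∧ DLS.Core hi r) (n : ℕ) (hn : 3 ≤ n)
    (k : ℝ) : ∃ e : ℝ, 0 < e ∧ ∀ (g h : Met n) (Γ : Type) [Group Γ] [MulAction Γ (E n)]
      (Φ : ℝ → UT g → UT g) (Ψ : ℝ → UT h → UT h) (f : UM g Γ ≃ₜ UM h Γ), Riem g → Riem h →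
      Deck g Γ → Deck h Γ → SL3.Smooth h Γ → IsFlow g Φ → IsFlow h Ψ → Conj Φ Ψ f → Marked f →
      SL3.Pinched h k → Near g h e → IsoId g h Γ := by
  obtain ⟨j, rfl⟩ : ∃ j, n = j + 3 := ⟨n - 3, by omega⟩
  obtain ⟨r, hr, B⟩ := @A ⟨j⟩ (max k 1) (le_max_right _ _)
  obtain ⟨e, he, M⟩ := @DLS.mainL_of ⟨j⟩ _ _ (le_max_right _ _) hr B
  exact ⟨e, he, @finL ⟨j⟩ k _ e (le_max_left _ _) M⟩

end Pool.Agent.MP_3ee8cb_gt.SLL
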