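import Pool.Agent.MP_3ee8cb_gt.DZ.All
import Pool.Agent.MP_3ee8cb_gt.DL.Top
import Pool.Agent.MP_3ee8cb_gt.DL.RDAN
import Pool.Agent.MP_3ee8cb_gt.DL.REND1
import Pool.Agent.MP_3ee8cb_gt.DL.REQV67
import Pool.Agent.MP_3ee8cb_gt.DL.RJA
import Pool.Agent.MP_3ee8cb_gt.DL.RJB
import Pool.Agent.MP_3ee8cb_gt.DL.RLB
import Pool.Agent.MP_3ee8cb_gt.DL.RLZ
import Pool.Agent.MP_3ee8cb_gt.DL.RMIN
import Pool.Agent.MP_3ee8cb_gt.DL.RNEAR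
import Pool.Agent.MP_3ee8cb_gt.DL.RSUP
import Pool.Agent.MP_3ee8cb_gt.DL.RZERO
import Pool.Agent.MP_3ee8cb_gt.SLL.Fin

/-! Small fronts force an isometry. -/

namespace Pool.Agent.MP_3ee8cb_gt.SLL

open DN DZ

theorem core [Dim] (hi : ℝ) (h1 : 1 ≤ hi) : ∃ r, 0 < r ∧ DLS.Core hi r :=
  DL.core_of sJAC sFRM DNFL.had sACT sMS sB1 sBG xw sASY sBC sEXA sMOV sLIP sGR sBF sONTO RVOL.veq
    RVOL.area sVOL sEND2 DL.sLB DL.sPOS DL.sDAN DL.sMIN DL.sLZ DL.sNEAR DL.sSUP DL.sZERO DL.sFL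
    DL.sJA DL.sJB DL.sEND1 DL.eqv67 hi (by linarith)

end Pool.Agent.MP_3ee8cb_gt.SLL
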